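import Pool.Agent.Q45.Res.Lines

/-! The coordinate ring of a finite set of lines through the origin is Cohen-Macaulay. -/

open MvPolynomial

namespace Q45.Res

variable {K : Type*} [Field K] {d : ℕ} {ι : Type*} [Fintype ι]

/-- the ideal of the lines spanned by the `P i` -/
noncomputable def idl (P : ι → Fin d → K) : Ideal (MvPolynomial (Fin d) K) :=
  ⨅ i, RingHom.ker (res (P i))

omit [Fintype ι] in
lemma mem_idl (P : ι → Fin d → K) (f : MvPolynomial (Fin d) K) :
    f ∈ idl P ↔ ∀ i, res (P i) f = 0 := by
  simp [idl, RingHom.mem_ker]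

lemma ker_isPrime (P : Fin d → K) : (RingHom.ker (res P)).IsPrime :=
  RingHom.ker_isPrime _

/-- a prime containing the ideal of the lines contains the ideal of one of the lines -/
lemma exists_ker_le (P : ι → Fin d → K) (Q : Ideal (MvPolynomial (Fin d) K)) [Q.IsPrime]
    (h : idl P ≤ Q) : ∃ i, RingHom.ker (res (P i)) ≤ Q := by
  classical
  have h1 : Finset.univ.inf (fun i => RingHom.ker (res (P i))) ≤ Q := by
    rw [Finset.inf_univ_eq_iInf]; exact h
  obtain ⟨i, -, hi⟩ := (Ideal.IsPrime.inf_le' ‹Q.IsPrime›).mp h1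
  exact ⟨i, hi⟩

/-- above the ideal of a line there is no chain of length two -/
lemma ker_eq_of_lt {P : Fin d → K} (hP : P ≠ 0) {Q Q' : Ideal (MvPolynomial (Fin d) K)}
    [Q.IsPrime] [Q'.IsPrime] (h : RingHom.ker (res P) ≤ Q) (h' : Q < Q') :
    Q = RingHom.ker (res P) := by
  by_contra hne
  have hsurj := res_surjective hP
  have hmap : (Ideal.map (res P) Q).IsPrime := by
    apply Ideal.map_isPrime_of_surjective (f := (res P : MvPolynomial (Fin d) K →+* Polynomial K))
      hsurj
    exact h
  have hcomap : Ideal.comap (res P) (Ideal.map (res P) Q) = Q := by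
    apply le_antisymm _ Ideal.le_comap_map
    intro f hf
    rw [Ideal.mem_comap] at hf
    rw [Ideal.mem_map_iff_of_surjective _ hsurj] at hf
    obtain ⟨g, hg, hgf⟩ := hf
    have : f - g ∈ RingHom.ker (res P) := by
      rw [RingHom.mem_ker]
      show res P (f - g) = 0
      rw [map_sub, hgf, sub_self]
    have h2 := Q.add_mem (h this) hg
    simpa using h2
  have hbot : Ideal.map (res P) Q ≠ ⊥ := by
    intro hb
    apply hne
    rw [← hcomap, hb]
    rfl
  have hmax : (Ideal.map (res P) Q).IsMaximal := hmap.isMaximal hbot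
  have hmaxQ : Q.IsMaximal := by
    rw [← hcomap]
    exact Ideal.comap_isMaximal_of_surjective (res P) hsurj
  exact (Ideal.IsPrime.ne_top ‹Q'.IsPrime›) (hmaxQ.1.2 _ h')

lemma exists_lf_sep {P P' : Fin d → K} (hP : P ≠ 0) (h : ∀ c : K, P' ≠ c • P) :
    ∃ b : Fin d → K, ∑ j, b j * P j = 0 ∧ ∑ j, b j * P' j ≠ 0 := by
  obtain ⟨k, hk⟩ : ∃ k, P k ≠ 0 := by
    by_contra h
    push Not at h
    exact hP (funext h)
  have h1 := h (P' k * (P k)⁻¹)
  obtain ⟨l, hl⟩ : ∃ l, P' l ≠ P' k * (P k)⁻¹ * P l := by
    by_contra h2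
    push Not at h2
    exact h1 (funext h2)
  refine ⟨fun j => P k * (Pi.single l 1 : Fin d → K) j - P l * (Pi.single k 1 : Fin d → K) j,
    ?_, ?_⟩
  · simp only [sub_mul, Finset.sum_sub_distrib, mul_assoc, ← Finset.mul_sum]
    simp [Pi.single_apply, mul_comm]
  · simp only [sub_mul, Finset.sum_sub_distrib, mul_assoc, ← Finset.mul_sum]
    simp only [Pi.single_apply, ite_mul, one_mul, zero_mul, Finset.sum_ite_eq', Finset.mem_univ,
      if_true]
    intro h3
    apply hl
    field_simp
    linear_combination h3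

lemma ker_not_le {P P' : Fin d → K} (hP : P ≠ 0) (h : ∀ c : K, P' ≠ c • P) :
    ¬ RingHom.ker (res P) ≤ RingHom.ker (res P') := by
  intro hle
  obtain ⟨b, h1, h2⟩ := exists_lf_sep hP h
  have h3 : lf b ∈ RingHom.ker (res P) := by
    rw [RingHom.mem_ker]
    show res P (lf b) = 0
    rw [res_lf, h1]; simp
  have h4 := hle h3
  rw [RingHom.mem_ker] at h4
  have h5 : res P' (lf b) = 0 := h4
  rw [res_lf] at h5
  have := mul_eq_zero.mp h5
  rcases this with h6 | h6
  · exact h2 (Polynomial.C_eq_zero.mp h6)
  · exact Polynomial.X_ne_zero h6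

variable (P : ι → Fin d → K)

omit [Fintype ι] in
/-- nonzerodivisors -/
lemma mul_mem_idl {r f : MvPolynomial (Fin d) K} (hr : ∀ i, res (P i) r ≠ 0)
    (h : r * f ∈ idl P) : f ∈ idl P := by
  rw [mem_idl] at h ⊢
  intro i
  have := h i
  rw [map_mul] at this
  exact (mul_eq_zero.mp this).resolve_left (hr i)

lemma regular_of_nzd {A : Type*} [CommRing A] {a : A} (h : a ∈ nonZeroDivisors A) :
    IsSMulRegular A a := by
  intro x y hxy
  simp only [smul_eq_mul] at hxy
  have h3 := (mem_nonZeroDivisors_iff_right.mp h) (x - y) (by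
    rw [sub_mul, mul_comm x, mul_comm y]; exact sub_eq_zero.mpr hxy)
  exact sub_eq_zero.mp h3

lemma local_zero {R : Type*} [CommRing R] (p : Ideal R) [p.IsPrime] (h : p.height = 0) :
    ∃ rs : List (Localization.AtPrime p),
    (∀ r ∈ rs, r ∈ IsLocalRing.maximalIdeal (Localization.AtPrime p)) ∧
    RingTheory.Sequence.IsRegular (Localization.AtPrime p) rs ∧
    ((rs.length : ℕ∞) = p.height) := by
  refine ⟨[], by simp, RingTheory.Sequence.IsRegular.nil _ _, ?_⟩
  rw [h]; simp

lemma local_one {R : Type*} [CommRing R] (p : Ideal R) [p.IsPrime] (h : p.height = 1) {r : R}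
    (hrp : r ∈ p) (hr : r ∈ nonZeroDivisors R) :
    ∃ rs : List (Localization.AtPrime p),
    (∀ r ∈ rs, r ∈ IsLocalRing.maximalIdeal (Localization.AtPrime p)) ∧
    RingTheory.Sequence.IsRegular (Localization.AtPrime p) rs ∧
    ((rs.length : ℕ∞) = p.height) := by
  have hreg' : IsSMulRegular (Localization.AtPrime p)
      (algebraMap R (Localization.AtPrime p) r) :=
    regular_of_nzd (IsLocalization.map_nonZeroDivisors_le p.primeCompl
        (Localization.AtPrime p) (Submonoid.mem_map_of_mem _ hr))
  have hmem : algebraMap R (Localization.AtPrime p) r ∈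
      IsLocalRing.maximalIdeal (Localization.AtPrime p) := by
    rw [IsLocalization.AtPrime.to_map_mem_maximal_iff (Localization.AtPrime p) p]
    exact hrp
  have hall : ∀ x ∈ [algebraMap R (Localization.AtPrime p) r],
      x ∈ IsLocalRing.maximalIdeal (Localization.AtPrime p) := by
    intro x hx
    rw [List.mem_singleton] at hx
    rw [hx]; exact hmem
  refine ⟨[algebraMap R (Localization.AtPrime p) r], hall, ?_, ?_⟩
  · apply RingTheory.Sequence.IsRegular.of_isWeaklyRegular_of_mem_maximalIdeal _ hall
    rw [RingTheory.Sequence.isWeaklyRegular_singleton_iff]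
    exact hreg'
  · rw [h]; simp

theorem isCohenMacaulay_idl (hP : ∀ i, P i ≠ 0) (hPP : ∀ i j, i ≠ j → ∀ c : K, P i ≠ c • P j) :
    IsCohenMacaulay (MvPolynomial (Fin d) K ⧸ idl P) := by
  classical
  refine ⟨inferInstance, ?_⟩
  intro p hp
  set R := MvPolynomial (Fin d) K ⧸ idl P with hR
  let q : Ideal R → Ideal (MvPolynomial (Fin d) K) := fun p => p.comap (Ideal.Quotient.mk (idl P))
  have hqP : ∀ p : Ideal R, idl P ≤ q p := by
    intro p f hf
    show Ideal.Quotient.mk (idl P) f ∈ p
    rw [Ideal.Quotient.eq_zero_iff_mem.mpr hf]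
    exact p.zero_mem
  have hqlt : ∀ {p p' : Ideal R}, p < p' → q p < q p' := by
    intro p p' h
    refine lt_of_le_of_ne (Ideal.comap_mono h.le) ?_
    intro he
    exact h.ne (Ideal.comap_injective_of_surjective _ Ideal.Quotient.mk_surjective he)
  -- a prime which is strictly below another prime is a minimal prime
  have hmin : ∀ (Q : Ideal R), Q.IsPrime → (∃ i, q Q = RingHom.ker (res (P i))) →
      Q.height = 0 := by
    intro Q hQ ⟨i, hi⟩
    rw [← nonpos_iff_eq_zero]
    have : Q.height ≤ (0 : ℕ) := by
      rw [Ideal.height_le_iff]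
      intro Q' hQ' hlt
      exfalso
      have : (q Q').IsPrime := Ideal.comap_isPrime _ _
      obtain ⟨j, hj⟩ := exists_ker_le P (q Q') (hqP Q')
      have h1 : q Q' < RingHom.ker (res (P i)) := by rw [← hi]; exact hqlt hlt
      have h2 : j = i := by
        by_contra hji
        exact ker_not_le (hP j) (fun c => hPP i j (Ne.symm hji) c) (hj.trans h1.le)
      subst h2
      exact absurd hj (not_le_of_gt h1)
    simpa using this
  have : (q p).IsPrime := Ideal.comap_isPrime _ _
  obtain ⟨i, hi⟩ := exists_ker_le P (q p) (hqP p)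
  by_cases hcase : ∃ j, q p = RingHom.ker (res (P j))
  · exact local_zero p (hmin p hp hcase)
  · -- height one
    have hht : p.height = 1 := by
      apply le_antisymm
      · have : p.height ≤ (1 : ℕ) := by
          rw [Ideal.height_le_iff]
          intro Q hQ hlt
          have : (q Q).IsPrime := Ideal.comap_isPrime _ _
          obtain ⟨j, hj⟩ := exists_ker_le P (q Q) (hqP Q)
          have := hmin Q hQ ⟨j, ker_eq_of_lt (hP j) hj (hqlt hlt)⟩
          rw [this]; norm_num
        simpa using this
      · rw [Order.one_le_iff_ne_zero]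
        intro h0
        rw [Ideal.height_eq_zero_iff] at h0
        -- the image of ker is a smaller prime
        have hQ : (Ideal.map (Ideal.Quotient.mk (idl P)) (RingHom.ker (res (P i)))).IsPrime := by
          have := ker_isPrime (P i)
          apply Ideal.map_isPrime_of_surjective Ideal.Quotient.mk_surjective
          rw [Ideal.mk_ker]
          exact iInf_le _ i
        have hle : Ideal.map (Ideal.Quotient.mk (idl P)) (RingHom.ker (res (P i))) ≤ p := by
          rw [Ideal.map_le_iff_le_comap]
          exact hi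
        have h2 := h0.2 ⟨hQ, bot_le⟩ hle
        apply hcase
        refine ⟨i, le_antisymm ?_ hi⟩
        have h3 := Ideal.comap_mono (f := Ideal.Quotient.mk (idl P)) h2
        refine h3.trans ?_
        rw [Ideal.comap_map_of_surjective _ Ideal.Quotient.mk_surjective]
        apply sup_le le_rfl
        rw [← RingHom.ker_eq_comap_bot, Ideal.mk_ker]
        exact iInf_le _ i
    -- a nonzerodivisor in p
    obtain ⟨r, hrp, hr⟩ : ∃ r ∈ q p, ∀ j, res (P j) r ≠ 0 := by
      by_contra hcon
      push Not at hcon
      have hsub : ((q p : Ideal (MvPolynomial (Fin d) K)) : Set (MvPolynomial (Fin d) K)) ⊆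
          ⋃ j ∈ (Finset.univ : Finset ι), (RingHom.ker (res (P j)) : Set _) := by
        intro r hr
        obtain ⟨j, hj⟩ := hcon r hr
        simp only [Set.mem_iUnion]
        exact ⟨j, Finset.mem_univ j, hj⟩
      have := (Ideal.subset_union_prime (s := Finset.univ)
        (f := fun j => RingHom.ker (res (P j))) i i (fun j _ _ _ => ker_isPrime (P j))).mp hsub
      obtain ⟨j, -, hj⟩ := this
      have hij : i = j := by
        by_contra hne
        exact ker_not_le (hP i) (fun c => hPP j i (Ne.symm hne) c) (hi.trans hj)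
      subst hij
      exact hcase ⟨i, le_antisymm hj hi⟩
    have hreg : IsSMulRegular R (Ideal.Quotient.mk (idl P) r) := by
      intro x y hxy
      obtain ⟨x, rfl⟩ := Ideal.Quotient.mk_surjective x
      obtain ⟨y, rfl⟩ := Ideal.Quotient.mk_surjective y
      simp only [smul_eq_mul, ← map_mul] at hxy
      rw [Ideal.Quotient.eq] at hxy ⊢
      rw [← mul_sub] at hxy
      exact mul_mem_idl P hr hxy
    have h1 : Ideal.Quotient.mk (idl P) r ∈ nonZeroDivisors R := by
      rw [mem_nonZeroDivisors_iff_right]
      intro x hx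
      apply hreg
      simp only [smul_eq_mul, mul_zero]
      rw [mul_comm]; exact hx
    exact local_one p hht hrp h1

end Q45.Res
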