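import Mathlib

/-! Logarithmic derivations and forms of hyperplane arrangements; for a free arrangement in an
`n`-dimensional space, every image of the module of logarithmic 1-forms has at most `n`
generators. -/

open MvPolynomial

namespace Q45.Res

variable {K : Type*} [Field K]

/-- The linear form with coefficient vector `a`. -/
noncomputable def lf {n : ℕ} (a : Fin n → K) : MvPolynomial (Fin n) K := ∑ j, C (a j) * X j

/-- The linear forms `a i` define pairwise different hyperplanes (through the origin). -/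
def IsArrangement {n m : ℕ} (a : Fin m → Fin n → K) : Prop :=
  (∀ i, a i ≠ 0) ∧ ∀ i j, i ≠ j → ∀ c : K, a i ≠ c • a j

/-- The defining polynomial. -/
noncomputable def defPoly {n m : ℕ} (a : Fin m → Fin n → K) : MvPolynomial (Fin n) K :=
  ∏ i, lf (a i)

/-- `θ(α_i)` is divisible by `α_i` for all `i`, where `θ = ∑ θ_j ∂_j`. -/
def IsLogDer {n m : ℕ} (a : Fin m → Fin n → K) (θ : Fin n → MvPolynomial (Fin n) K) : Prop :=
  ∀ i, lf (a i) ∣ ∑ j, θ j * C (a i j)

/-- `η ∧ dα_i ∈ α_i Ω²` for all `i`, for the polynomial 1-form `η = ∑ η_j dx_j`. -/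
def WedgeCond {n m : ℕ} (a : Fin m → Fin n → K) (η : Fin n → MvPolynomial (Fin n) K) : Prop :=
  ∀ i j k, lf (a i) ∣ η j * C (a i k) - η k * C (a i j)

/-- `ω = ∑ ω_j dx_j` is a rational 1-form (with coefficients in the fraction field `F` of `S`)
such that `Q ω = η` is a polynomial form and `η ∧ dα_i ∈ α_i Ω²` for all `i`. -/
def IsLogForm {n m : ℕ} (a : Fin m → Fin n → K) {F : Type*} [Field F]
    [Algebra (MvPolynomial (Fin n) K) F] (ω : Fin n → F) : Prop :=
  ∃ η : Fin n → MvPolynomial (Fin n) K, WedgeCond a η ∧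
    ∀ j, algebraMap (MvPolynomial (Fin n) K) F (defPoly a) * ω j =
      algebraMap (MvPolynomial (Fin n) K) F (η j)

lemma der_add {n m : ℕ} (a : Fin m → Fin n → K) {x y : Fin n → MvPolynomial (Fin n) K}
    (hx : IsLogDer a x) (hy : IsLogDer a y) : IsLogDer a (x + y) := by
  intro i
  have := dvd_add (hx i) (hy i)
  simpa [add_mul, Finset.sum_add_distrib] using this

lemma der_zero {n m : ℕ} (a : Fin m → Fin n → K) : IsLogDer a 0 := by intro i; simp

lemma der_smul {n m : ℕ} (a : Fin m → Fin n → K) (c : MvPolynomial (Fin n) K)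
    {x : Fin n → MvPolynomial (Fin n) K} (hx : IsLogDer a x) : IsLogDer a (c • x) := by
  intro i
  have := (hx i).mul_left c
  simpa [Finset.mul_sum, mul_assoc] using this

section forms

variable {n m : ℕ} (a : Fin m → Fin n → K) {F : Type*} [Field F]
  [Algebra (MvPolynomial (Fin n) K) F]

lemma form_add {x y : Fin n → F} (hx : IsLogForm a x) (hy : IsLogForm a y) :
    IsLogForm a (x + y) := by
  obtain ⟨η, h2, h1⟩ := hx
  obtain ⟨ζ, h4, h3⟩ := hy
  refine ⟨η + ζ, fun i j k => ?_, fun j => ?_⟩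
  · have := dvd_add (h2 i j k) (h4 i j k)
    convert this using 1
    simp only [Pi.add_apply]; ring
  · simp only [Pi.add_apply, mul_add, map_add, h1, h3]

lemma form_zero : IsLogForm a (0 : Fin n → F) := ⟨0, by intro i j k; simp, by simp⟩

lemma form_smul (c : MvPolynomial (Fin n) K) {x : Fin n → F} (hx : IsLogForm a x) :
    IsLogForm a (c • x) := by
  obtain ⟨η, h2, h1⟩ := hx
  refine ⟨c • η, fun i j k => ?_, fun j => ?_⟩
  · have := (h2 i j k).mul_left c
    convert this using 1
    simp only [Pi.smul_apply, smul_eq_mul]; ring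
  · have := h1 j
    rw [Pi.smul_apply, Algebra.smul_def, Pi.smul_apply, smul_eq_mul, map_mul, ← this]
    ring

end forms

/-- The module `D(A)` of logarithmic derivations. -/
noncomputable def derLog {n m : ℕ} (a : Fin m → Fin n → K) :
    Submodule (MvPolynomial (Fin n) K) (Fin n → MvPolynomial (Fin n) K) where
  carrier := {θ | IsLogDer a θ}
  add_mem' := der_add a
  zero_mem' := der_zero a
  smul_mem' := fun c _ => der_smul a c

/-- The module `Ω¹(A)` of logarithmic 1-forms. -/
noncomputable def omegaLog {n m : ℕ} (a : Fin m → Fin n → K) (F : Type*) [Field F]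
    [Algebra (MvPolynomial (Fin n) K) F] : Submodule (MvPolynomial (Fin n) K) (Fin n → F) where
  carrier := {ω | IsLogForm a ω}
  add_mem' := form_add a
  zero_mem' := form_zero a
  smul_mem' := fun c _ => form_smul a c

lemma coeff_lf {n : ℕ} (a : Fin n → K) (j : Fin n) :
    (lf a).coeff (Finsupp.single j 1) = a j := by
  classical
  unfold lf
  rw [coeff_sum, Finset.sum_eq_single j]
  · simp
  · intro i _ hij
    rw [coeff_C_mul, coeff_X, if_neg]
    · simp
    · intro h
      exact hij (Finsupp.single_left_injective one_ne_zero h)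
  · simp

lemma lf_injective {n : ℕ} : Function.Injective (lf : (Fin n → K) → MvPolynomial (Fin n) K) := by
  intro a b h
  funext j
  rw [← coeff_lf a j, ← coeff_lf b j, h]

lemma lf_ne_zero {n : ℕ} {a : Fin n → K} (ha : a ≠ 0) : lf a ≠ 0 := by
  intro h
  apply ha
  apply lf_injective
  rw [h]; simp [lf]

lemma isHomogeneous_lf {n : ℕ} (a : Fin n → K) : (lf a).IsHomogeneous 1 := by
  unfold lf
  apply IsHomogeneous.sum
  intro j _
  have := (isHomogeneous_C (Fin n) (a j)).mul (isHomogeneous_X K j)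
  simpa using this

lemma totalDegree_lf {n : ℕ} {a : Fin n → K} (ha : a ≠ 0) : (lf a).totalDegree = 1 :=
  (isHomogeneous_lf a).totalDegree (lf_ne_zero ha)

lemma irreducible_lf {n : ℕ} {a : Fin n → K} (ha : a ≠ 0) : Irreducible (lf a) := by
  apply irreducible_of_totalDegree_eq_one (totalDegree_lf ha)
  intro x hx
  rw [isUnit_iff_ne_zero]
  rintro rfl
  apply lf_ne_zero ha
  ext i
  simpa using hx i

lemma prime_lf {n : ℕ} {a : Fin n → K} (ha : a ≠ 0) : Prime (lf a) :=
  (irreducible_lf ha).prime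

lemma smul_lf {n : ℕ} (c : K) (a : Fin n → K) : lf (c • a) = C c * lf a := by
  simp only [lf, Pi.smul_apply, smul_eq_mul, map_mul, Finset.mul_sum, mul_assoc]

lemma dvd_lf {n : ℕ} {a b : Fin n → K} (ha : a ≠ 0) (hb : b ≠ 0) (h : lf a ∣ lf b) :
    ∃ c : K, b = c • a := by
  obtain ⟨q, hq⟩ := h
  have hq0 : q ≠ 0 := by rintro rfl; exact lf_ne_zero hb (by simpa using hq)
  have h1 := totalDegree_mul_of_isDomain (lf_ne_zero ha) hq0
  rw [← hq, totalDegree_lf ha, totalDegree_lf hb] at h1
  have h2 : q.totalDegree = 0 := by omega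
  rw [totalDegree_eq_zero_iff_eq_C] at h2
  refine ⟨q.coeff 0, lf_injective ?_⟩
  rw [smul_lf, ← h2, hq, mul_comm]

lemma isRelPrime_lf {n : ℕ} {a b : Fin n → K} (ha : a ≠ 0) (hb : b ≠ 0)
    (h : ∀ c : K, b ≠ c • a) : IsRelPrime (lf a) (lf b) := by
  rw [(irreducible_lf ha).isRelPrime_iff_not_dvd]
  intro hd
  obtain ⟨c, hc⟩ := dvd_lf ha hb hd
  exact h c hc

lemma defPoly_dvd {n m : ℕ} {a : Fin m → Fin n → K} (ha : IsArrangement a)
    {f : MvPolynomial (Fin n) K} (h : ∀ i, lf (a i) ∣ f) : defPoly a ∣ f := by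
  unfold defPoly
  apply Fintype.prod_dvd_of_isRelPrime _ h
  intro i j hij
  exact isRelPrime_lf (ha.1 i) (ha.1 j) (fun c => ha.2 j i (Ne.symm hij) c)

lemma defPoly_ne_zero {n m : ℕ} {a : Fin m → Fin n → K} (ha : IsArrangement a) :
    defPoly a ≠ 0 := by
  unfold defPoly
  exact Finset.prod_ne_zero_iff.mpr fun i _ => lf_ne_zero (ha.1 i)

end Q45.Res
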