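import Pool.Agent.Q45.Res.Points

/-! The ten lines are a Cohen-Macaulay arrangement whose ideal is no image of `Ω¹(A)` for a free
arrangement `A` in `K^4`. -/

open MvPolynomial

namespace Q45.Res

variable {K : Type*} [Field K]

lemma pts_ne_zero (c : K) (i : Fin 10) : pts c i ≠ 0 := by
  intro h
  have h0 := congrFun h 0
  have h1 := congrFun h 1
  have h2 := congrFun h 2
  fin_cases i <;> simp [pts] at h0 h1 h2

lemma pts_ne_smul {c : K} (h0 : c ≠ 0) (h1 : c ≠ 1) (i j : Fin 10) (hij : i ≠ j) (t : K) :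
    pts c i ≠ t • pts c j := by
  intro h
  have e0 := congrFun h 0
  have e1 := congrFun h 1
  have e2 := congrFun h 2
  fin_cases i <;> fin_cases j <;> simp [pts] at e0 e1 e2 hij <;> grind

open Classical in
/-- the ten lines -/
noncomputable def lines (c : K) : Finset (Submodule K (Fin 3 → K)) :=
  Finset.univ.image (fun i => Submodule.span K {pts c i})

lemma idealArr_lines (c : K) : idealArr (lines c) = idl (pts c) := by
  classical
  unfold idealArr idl lines
  apply le_antisymm
  · refine le_iInf fun i => ?_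
    rw [ker_res (pts_ne_zero c i)]
    exact iInf₂_le (f := fun X _ => idealOf X) _ (Finset.mem_image_of_mem _ (Finset.mem_univ i))
  · refine le_iInf₂ fun X hX => ?_
    rw [Finset.mem_image] at hX
    obtain ⟨i, -, rfl⟩ := hX
    rw [← ker_res (pts_ne_zero c i)]
    exact iInf_le _ i

lemma finrank_lines (c : K) : ∀ X ∈ lines c, Module.finrank K X + 2 = 3 := by
  classical
  intro X hX
  unfold lines at hX
  rw [Finset.mem_image] at hX
  obtain ⟨i, -, rfl⟩ := hX
  rw [finrank_span_singleton (pts_ne_zero c i)]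

theorem cm_lines {c : K} (h0 : c ≠ 0) (h1 : c ≠ 1) :
    IsCohenMacaulay (MvPolynomial (Fin 3) K ⧸ idealArr (lines c)) := by
  rw [idealArr_lines]
  exact isCohenMacaulay_idl (pts c) (pts_ne_zero c) (fun i j hij t => pts_ne_smul h0 h1 i j hij t)

/-- the coordinate ring `S/(α)` of the hyperplane `α = 0` -/
def CoordRing {n : ℕ} (v : Fin n → K) : Type _ :=
  MvPolynomial (Fin n) K ⧸ Ideal.span {lf v}

noncomputable instance {n : ℕ} (v : Fin n → K) : CommRing (CoordRing v) :=
  inferInstanceAs (CommRing (MvPolynomial (Fin n) K ⧸ Ideal.span {lf v}))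

noncomputable instance {n : ℕ} (v : Fin n → K) : Algebra (MvPolynomial (Fin n) K) (CoordRing v) :=
  inferInstanceAs (Algebra (MvPolynomial (Fin n) K) (MvPolynomial (Fin n) K ⧸ Ideal.span {lf v}))

/-- the type of logarithmic 1-forms -/
def OmegaMod {n m : ℕ} (a : Fin m → Fin n → K) (F : Type*) [Field F]
    [Algebra (MvPolynomial (Fin n) K) F] : Type _ := omegaLog a F

noncomputable instance {n m : ℕ} (a : Fin m → Fin n → K) (F : Type*) [Field F]
    [Algebra (MvPolynomial (Fin n) K) F] : AddCommGroup (OmegaMod a F) :=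
  inferInstanceAs (AddCommGroup (omegaLog a F))

noncomputable instance {n m : ℕ} (a : Fin m → Fin n → K) (F : Type*) [Field F]
    [Algebra (MvPolynomial (Fin n) K) F] : Module (MvPolynomial (Fin n) K) (OmegaMod a F) :=
  inferInstanceAs (Module (MvPolynomial (Fin n) K) (omegaLog a F))

/-- `J ⊆ S/(α)` is the image of an `S`-linear map on the module `Ω¹(A)`. -/
def IsImage {n m : ℕ} (a : Fin m → Fin n → K) (F : Type*) [Field F]
    [Algebra (MvPolynomial (Fin n) K) F] {v : Fin n → K} (J : Set (CoordRing v)) : Prop :=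
  ∃ ρ : OmegaMod a F →ₗ[MvPolynomial (Fin n) K] CoordRing v, Set.range ρ = J

/-- `J ⊆ S/(α)` corresponds to the ideal `I` of `K[W]` under some ring isomorphism. -/
def Corresponds {n d : ℕ} {v : Fin n → K} (J : Set (CoordRing v))
    (I : Ideal (MvPolynomial (Fin d) K)) : Prop :=
  ∃ e : CoordRing v ≃+* MvPolynomial (Fin d) K, e '' J = I

/-- free arrangements -/
def IsFreeArrangement {n m : ℕ} (a : Fin m → Fin n → K) : Prop :=
  IsArrangement a ∧ Module.Free (MvPolynomial (Fin n) K) (derLog a)

theorem not_image {c : K} (h0 : c ≠ 0) (h1 : c ≠ 1) {m : ℕ} (a : Fin m → Fin 4 → K)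
    (F : Type*) [Field F] [Algebra (MvPolynomial (Fin 4) K) F]
    [IsFractionRing (MvPolynomial (Fin 4) K) F] (hfree : IsFreeArrangement a) {v : Fin 4 → K}
    (J : Set (CoordRing v)) (hJ : IsImage a F J) : ¬ Corresponds J (idealArr (lines c)) := by
  rintro ⟨e, heq⟩
  obtain ⟨ρ, rfl⟩ := hJ
  obtain ⟨ha, hf⟩ := hfree
  rw [idealArr_lines] at heq
  obtain ⟨g, hg⟩ := range_gens ha hf (M := CoordRing v)
    (ρ : omegaLog a F →ₗ[MvPolynomial (Fin 4) K] CoordRing v)
  have hrange : ∀ r, r ∈ Set.range ρ ↔
      r ∈ Submodule.span (MvPolynomial (Fin 4) K) (Set.range g) := by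
    intro r
    rw [hg]; rfl
  apply not_four_gens h0 h1 (fun i => e (g i))
  apply le_antisymm
  · rw [Ideal.span_le]
    rintro _ ⟨i, rfl⟩
    rw [← heq]
    exact ⟨g i, (hrange _).mpr (Submodule.subset_span (Set.mem_range_self i)), rfl⟩
  · intro f hf'
    have : f ∈ (idl (pts c) : Set (MvPolynomial (Fin 3) K)) := hf'
    rw [← heq] at this
    obtain ⟨r, hr, rfl⟩ := this
    rw [hrange] at hr
    induction hr using Submodule.span_induction with
    | mem x hx =>
      obtain ⟨i, rfl⟩ := hx
      exact Ideal.subset_span ⟨i, rfl⟩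
    | zero => rw [map_zero]; exact Ideal.zero_mem _
    | add x y hx hy h1 h2 =>
      rw [map_add]
      have hx' : e x ∈ idl (pts c) := by
        have : e x ∈ e '' Set.range ρ := ⟨x, (hrange _).mpr hx, rfl⟩
        rw [heq] at this; exact this
      have hy' : e y ∈ idl (pts c) := by
        have : e y ∈ e '' Set.range ρ := ⟨y, (hrange _).mpr hy, rfl⟩
        rw [heq] at this; exact this
      exact Ideal.add_mem _ (h1 hx') (h2 hy')
    | smul s x hx h1 =>
      have hx' : e x ∈ idl (pts c) := by
        have : e x ∈ e '' Set.range ρ := ⟨x, (hrange _).mpr hx, rfl⟩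
        rw [heq] at this; exact this
      rw [Algebra.smul_def, map_mul]
      exact Ideal.mul_mem_left _ _ (h1 hx')

end Q45.Res
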