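import Pool.Agent.Q45.Res.Defs

/-! For a free arrangement `Ω¹(A)` is generated by `n` elements. -/

open MvPolynomial

namespace Q45.Res

variable {K : Type*} [Field K]


variable {n m : ℕ} {a : Fin m → Fin n → K} {F : Type*} [Field F]
  [Algebra (MvPolynomial (Fin n) K) F] [IsFractionRing (MvPolynomial (Fin n) K) F]

/-- `(Q / α_i) v` is in `D(A)` if `v` is a constant vector with `α_i(v) = 0`. -/
lemma mem_derLog_of (i : Fin m) (v : Fin n → K) (hv : ∑ j, v j * a i j = 0) :
    (fun j => (∏ l ∈ Finset.univ.erase i, lf (a l)) * C (v j)) ∈ derLog a := by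
  intro l
  by_cases hl : l = i
  · subst hl
    have : ∑ j, (∏ l' ∈ Finset.univ.erase l, lf (a l')) * C (v j) * C (a l j) = 0 := by
      simp only [mul_assoc, ← map_mul]
      rw [← Finset.mul_sum, ← map_sum, hv]
      simp
    rw [this]
    exact dvd_zero _
  · have h1 : lf (a l) ∣ ∏ l' ∈ Finset.univ.erase i, lf (a l') :=
      Finset.dvd_prod_of_mem _ (Finset.mem_erase.mpr ⟨hl, Finset.mem_univ _⟩)
    apply Finset.dvd_sum
    intro j _
    rw [mul_assoc]
    exact h1.mul_right _

lemma smul_mem_derLog (v : Fin n → K) :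
    (fun j => defPoly a * C (v j)) ∈ derLog a := by
  intro l
  apply Finset.dvd_sum
  intro j _
  rw [mul_assoc]
  exact (Finset.dvd_prod_of_mem _ (Finset.mem_univ l)).mul_right _

/-- the pairing of a form (numerator) with a logarithmic derivation is divisible by `Q` -/
lemma pairing_dvd (ha : IsArrangement a) (η : Fin n → MvPolynomial (Fin n) K)
    (hη : ∀ i j k, lf (a i) ∣ η j * C (a i k) - η k * C (a i j))
    (θ : Fin n → MvPolynomial (Fin n) K) (hθ : θ ∈ derLog a) :
    defPoly a ∣ ∑ j, η j * θ j := by
  apply defPoly_dvd ha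
  intro i
  obtain ⟨k, hk⟩ : ∃ k, a i k ≠ 0 := by
    by_contra h
    push Not at h
    exact ha.1 i (funext h)
  have h1 : lf (a i) ∣ (∑ j, η j * θ j) * C (a i k) := by
    have h2 : (∑ j, η j * θ j) * C (a i k) =
        (∑ j, (η j * C (a i k) - η k * C (a i j)) * θ j) + η k * ∑ j, θ j * C (a i j) := by
      rw [Finset.sum_mul, Finset.mul_sum, ← Finset.sum_add_distrib]
      apply Finset.sum_congr rfl
      intro j _; ring
    rw [h2]
    exact dvd_add (Finset.dvd_sum fun j _ => (hη i j k).mul_right _) ((hθ i).mul_left _)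
  have hu : IsUnit (C (a i k) : MvPolynomial (Fin n) K) := (isUnit_iff_ne_zero.mpr hk).map C
  exact (hu.dvd_mul_right).mp h1

/-- the numerator attached to a functional on `D(A)` -/
noncomputable def num (φ : derLog a →ₗ[MvPolynomial (Fin n) K] MvPolynomial (Fin n) K)
    (j : Fin n) : MvPolynomial (Fin n) K :=
  φ ⟨fun l => defPoly a * C ((Pi.single j 1 : Fin n → K) l), smul_mem_derLog _⟩

lemma num_wedge (φ : derLog a →ₗ[MvPolynomial (Fin n) K] MvPolynomial (Fin n) K)
    (i : Fin m) (j k : Fin n) :
    lf (a i) ∣ num φ j * C (a i k) - num φ k * C (a i j) := by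
  let v : Fin n → K := fun l =>
    a i k * (Pi.single j 1 : Fin n → K) l - a i j * (Pi.single k 1 : Fin n → K) l
  have hv : ∑ l, v l * a i l = 0 := by
    simp only [v, sub_mul, Finset.sum_sub_distrib, mul_assoc, ← Finset.mul_sum]
    simp [Pi.single_apply, mul_comm]
  refine ⟨φ ⟨_, mem_derLog_of i v hv⟩, ?_⟩
  rw [num, num, mul_comm, mul_comm (φ _) (C (a i j)), ← smul_eq_mul, ← smul_eq_mul,
    ← smul_eq_mul, ← map_smul, ← map_smul, ← map_smul, ← map_sub]
  congr 1
  apply Subtype.ext
  funext l
  simp only [Submodule.coe_sub, Submodule.coe_smul, Pi.sub_apply, Pi.smul_apply, smul_eq_mul, v]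
  rw [map_sub, map_mul, map_mul, defPoly, ← Finset.mul_prod_erase _ _ (Finset.mem_univ i)]
  ring

lemma map_defPoly_ne_zero (ha : IsArrangement a) :
    algebraMap (MvPolynomial (Fin n) K) F (defPoly a) ≠ 0 := by
  intro h
  apply defPoly_ne_zero ha
  apply IsFractionRing.injective (MvPolynomial (Fin n) K) F
  rw [h, map_zero]

variable (F) in
/-- from functionals to forms -/
noncomputable def toForm (φ : derLog a →ₗ[MvPolynomial (Fin n) K] MvPolynomial (Fin n) K)
    (ha : IsArrangement a) : omegaLog a F :=
  ⟨fun j => algebraMap (MvPolynomial (Fin n) K) F (num φ j) /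
      algebraMap (MvPolynomial (Fin n) K) F (defPoly a), by
    refine ⟨num φ, num_wedge φ, fun j => ?_⟩
    have := map_defPoly_ne_zero (F := F) ha
    field_simp⟩

/-- the functional attached to a form -/
lemma exists_functional (ha : IsArrangement a) (ω : omegaLog a F) :
    ∃ φ : derLog a →ₗ[MvPolynomial (Fin n) K] MvPolynomial (Fin n) K, toForm F φ ha = ω := by
  obtain ⟨w, η, h2, h1⟩ := ω
  have hQ := defPoly_ne_zero ha
  have key : ∀ θ : derLog a, ∃ q, ∑ j, η j * θ.1 j = defPoly a * q := fun θ =>
    pairing_dvd ha η h2 θ.1 θ.2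
  choose q hq using key
  let φ : derLog a →ₗ[MvPolynomial (Fin n) K] MvPolynomial (Fin n) K :=
    { toFun := q
      map_add' := by
        intro x y
        apply mul_left_cancel₀ hQ
        rw [← hq, mul_add, ← hq, ← hq, ← Finset.sum_add_distrib]
        apply Finset.sum_congr rfl
        intro j _
        simp [mul_add]
      map_smul' := by
        intro c x
        apply mul_left_cancel₀ hQ
        simp only [RingHom.id_apply, smul_eq_mul]
        rw [← hq, mul_left_comm, ← hq, Finset.mul_sum]
        apply Finset.sum_congr rfl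
        intro j _
        simp [mul_left_comm] }
  refine ⟨φ, ?_⟩
  apply Subtype.ext
  funext j
  have hQ' := map_defPoly_ne_zero (F := F) ha
  show _ / _ = w j
  rw [div_eq_iff hQ', mul_comm (w j), h1 j]
  congr 1
  show q _ = η j
  apply mul_left_cancel₀ hQ
  rw [← hq]
  simp [Pi.single_apply, mul_comm]

/-- For a free arrangement, `Ω¹(A)` is spanned by at most `n` elements. -/
theorem omega_gens (F : Type*) [Field F] [Algebra (MvPolynomial (Fin n) K) F]
    [IsFractionRing (MvPolynomial (Fin n) K) F] (ha : IsArrangement a)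
    (hf : Module.Free (MvPolynomial (Fin n) K) (derLog a)) :
    ∃ g : Fin n → omegaLog a F, Submodule.span (MvPolynomial (Fin n) K) (Set.range g) = ⊤ := by
  classical
  have hN : IsNoetherian (MvPolynomial (Fin n) K) (derLog a) := inferInstance
  have hfin : Module.Finite (MvPolynomial (Fin n) K) (derLog a) := inferInstance
  let r := Module.finrank (MvPolynomial (Fin n) K) (derLog a)
  let b : Module.Basis (Fin r) (MvPolynomial (Fin n) K) (derLog a) :=
    Module.finBasis _ _
  have hr : r ≤ n := by
    have h := Submodule.finrank_le (derLog a)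
    simpa using h
  -- generators
  let g0 : Fin r → omegaLog a F := fun i => toForm F (b.coord i) ha
  have hspan : ∀ ω : omegaLog a F, ω ∈ Submodule.span (MvPolynomial (Fin n) K) (Set.range g0) := by
    intro ω
    obtain ⟨φ, rfl⟩ := exists_functional ha ω
    have h1 : toForm F φ ha = ∑ i, φ (b i) • g0 i := by
      apply Subtype.ext
      funext j
      have hφ : φ = ∑ i, φ (b i) • b.coord i := by
        apply b.ext
        intro i
        simp
      have h2 : num φ j = ∑ i, φ (b i) * num (b.coord i) j := by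
        conv_lhs => rw [hφ]
        simp only [num, LinearMap.sum_apply, LinearMap.smul_apply, smul_eq_mul]
      rw [Submodule.coe_sum, Finset.sum_apply]
      show algebraMap (MvPolynomial (Fin n) K) F (num φ j) / _ = _
      rw [h2, map_sum, Finset.sum_div]
      apply Finset.sum_congr rfl
      intro i _
      rw [map_mul, Submodule.coe_smul, Pi.smul_apply, Algebra.smul_def, mul_div_assoc]
      rfl
    rw [h1]
    exact Submodule.sum_mem _ fun i _ =>
      Submodule.smul_mem _ _ (Submodule.subset_span (Set.mem_range_self i))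
  refine ⟨fun i => if h : (i : ℕ) < r then g0 ⟨i, h⟩ else 0, ?_⟩
  rw [eq_top_iff]
  intro ω _
  refine Submodule.span_mono ?_ (hspan ω)
  rintro _ ⟨i, rfl⟩
  refine ⟨Fin.castLE hr i, ?_⟩
  simp

/-- Any image of `Ω¹(A)` in a module is spanned by `n` elements. -/
theorem range_gens (ha : IsArrangement a)
    (hf : Module.Free (MvPolynomial (Fin n) K) (derLog a)) {M : Type*} [AddCommGroup M]
    [Module (MvPolynomial (Fin n) K) M] (ρ : omegaLog a F →ₗ[MvPolynomial (Fin n) K] M) :
    ∃ g : Fin n → M, Submodule.span (MvPolynomial (Fin n) K) (Set.range g) =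
      LinearMap.range ρ := by
  obtain ⟨g, hg⟩ := omega_gens F ha hf
  refine ⟨fun i => ρ (g i), ?_⟩
  rw [LinearMap.range_eq_map, ← hg, Submodule.map_span, ← Set.range_comp]
  rfl

end Q45.Res
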