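import Pool.Agent.Q45.Res.Defs

/-! Finite sets of lines through the origin: their ideal and the Cohen-Macaulay property. -/

open MvPolynomial

namespace Q45.Res

variable {K : Type*} [Field K]

/-- The ideal of a linear subspace: generated by the linear forms vanishing on it. -/
noncomputable def idealOf {d : ℕ} (X : Submodule K (Fin d → K)) :
    Ideal (MvPolynomial (Fin d) K) :=
  Ideal.span {f | ∃ b : Fin d → K, (∀ x ∈ X, ∑ j, b j * x j = 0) ∧ f = lf b}

/-- The ideal of a finite set of subspaces. -/
noncomputable def idealArr {d : ℕ} (B : Finset (Submodule K (Fin d → K))) :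
    Ideal (MvPolynomial (Fin d) K) := ⨅ X ∈ B, idealOf X

/-- Cohen-Macaulay rings: Noetherian, and for every prime `p` the local ring at `p` has a regular
sequence in its maximal ideal whose length is the height of `p`. -/
def IsCohenMacaulay (R : Type*) [CommRing R] : Prop :=
  IsNoetherianRing R ∧ ∀ (p : Ideal R) [p.IsPrime], ∃ rs : List (Localization.AtPrime p),
    (∀ r ∈ rs, r ∈ IsLocalRing.maximalIdeal (Localization.AtPrime p)) ∧
    RingTheory.Sequence.IsRegular (Localization.AtPrime p) rs ∧
    ((rs.length : ℕ∞) = p.height)

/-- restriction of polynomials to the line spanned by `P` -/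
noncomputable def res {d : ℕ} (P : Fin d → K) : MvPolynomial (Fin d) K →ₐ[K] Polynomial K :=
  aeval (fun j => Polynomial.C (P j) * Polynomial.X)

lemma res_X {d : ℕ} (P : Fin d → K) (j : Fin d) :
    res P (X j) = Polynomial.C (P j) * Polynomial.X := by
  simp [res]

lemma res_lf {d : ℕ} (P b : Fin d → K) :
    res P (lf b) = Polynomial.C (∑ j, b j * P j) * Polynomial.X := by
  have hC : ∀ c : K, res P (C c) = Polynomial.C c := fun c => by
    simp [res]
  simp only [lf, map_sum, map_mul, hC, res_X, Finset.sum_mul]
  apply Finset.sum_congr rfl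
  intro j _; ring

lemma res_surjective {d : ℕ} {P : Fin d → K} (hP : P ≠ 0) : Function.Surjective (res P) := by
  obtain ⟨k, hk⟩ : ∃ k, P k ≠ 0 := by
    by_contra h
    push Not at h
    exact hP (funext h)
  intro f
  refine ⟨Polynomial.aeval (C (P k)⁻¹ * X k) f, ?_⟩
  rw [← Polynomial.aeval_algHom_apply]
  have : (res P) (C (P k)⁻¹ * X k) = Polynomial.X := by
    rw [map_mul, res_X]
    have : res P (C (P k)⁻¹) = Polynomial.C (P k)⁻¹ := by simp [res]
    rw [this, ← mul_assoc, ← Polynomial.C_mul, inv_mul_cancel₀ hk]
    simp
  rw [this]
  simp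

lemma ker_res {d : ℕ} {P : Fin d → K} (hP : P ≠ 0) :
    RingHom.ker (res P) = idealOf (Submodule.span K {P}) := by
  obtain ⟨k, hk⟩ : ∃ k, P k ≠ 0 := by
    by_contra h
    push Not at h
    exact hP (funext h)
  apply le_antisymm
  · intro f hf
    rw [RingHom.mem_ker] at hf
    -- modulo the ideal, `X j = P j * u`
    set u : MvPolynomial (Fin d) K := C (P k)⁻¹ * X k with hu
    have h1 : ∀ j, (X j : MvPolynomial (Fin d) K) - C (P j) * u ∈
        idealOf (Submodule.span K {P}) := by
      intro j
      apply Ideal.subset_span
      refine ⟨Pi.single j 1 - (P j * (P k)⁻¹) • (Pi.single k 1 : Fin d → K), ?_, ?_⟩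
      · intro x hx
        rw [Submodule.mem_span_singleton] at hx
        obtain ⟨t, rfl⟩ := hx
        simp only [Pi.sub_apply, Pi.smul_apply, smul_eq_mul, sub_mul, Finset.sum_sub_distrib]
        simp only [Pi.single_apply]
        simp
        field_simp
        ring
      · have hl : ∀ (b b' : Fin d → K), lf (b - b') = lf b - lf b' := fun b b' => by
          simp [lf, sub_mul]
        have hs : ∀ i : Fin d, lf (Pi.single i 1 : Fin d → K) = X i := fun i => by
          simp [lf, Pi.single_apply, apply_ite C]
        rw [hl, smul_lf, hs, hs, hu]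
        simp only [map_mul]; ring
    have h2 : ∀ g : MvPolynomial (Fin d) K,
        g - Polynomial.aeval u (res P g) ∈ idealOf (Submodule.span K {P}) := by
      intro g
      induction g using MvPolynomial.induction_on with
      | C c =>
        have : res P (C c) = Polynomial.C c := by simp [res]
        rw [this]
        simp [algebraMap_eq]
      | add p q hp hq =>
        have := Ideal.add_mem _ hp hq
        convert this using 1
        simp only [map_add]; ring
      | mul_X p j hp =>
        have e : p * X j - Polynomial.aeval u (res P (p * X j)) =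
            X j * (p - Polynomial.aeval u (res P p)) +
            Polynomial.aeval u (res P p) * (X j - C (P j) * u) := by
          rw [map_mul, res_X, map_mul, map_mul, Polynomial.aeval_X, Polynomial.aeval_C]
          rw [algebraMap_eq]; ring
        rw [e]
        exact Ideal.add_mem _ (Ideal.mul_mem_left _ _ hp) (Ideal.mul_mem_left _ _ (h1 j))
    have := h2 f
    rw [hf, map_zero, sub_zero] at this
    exact this
  · unfold idealOf
    rw [Ideal.span_le]
    rintro _ ⟨b, hb, rfl⟩
    rw [SetLike.mem_coe, RingHom.mem_ker]
    show res P (lf b) = 0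
    rw [res_lf, hb P (Submodule.mem_span_singleton_self P)]
    simp

lemma coeff_res {d : ℕ} (P : Fin d → K) (f : MvPolynomial (Fin d) K) (k : ℕ) :
    (res P f).coeff k = eval P (homogeneousComponent k f) := by
  induction f using MvPolynomial.induction_on' with
  | monomial m c =>
    have h1 : res P (monomial m c) =
        Polynomial.C (c * ∏ j, P j ^ m j) * Polynomial.X ^ m.degree := by
      rw [res, aeval_monomial, Finsupp.prod_fintype _ _ (by simp)]
      simp only [mul_pow, Finset.prod_mul_distrib, Finset.prod_pow_eq_pow_sum,
        Polynomial.algebraMap_eq, map_mul, map_prod, map_pow]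
      rw [Finsupp.degree_eq_sum]
      ring
    have h2 : (monomial m c : MvPolynomial (Fin d) K).IsHomogeneous m.degree :=
      isHomogeneous_monomial c rfl
    rw [h1, Polynomial.coeff_C_mul_X_pow, homogeneousComponent_of_mem h2]
    by_cases h : k = m.degree
    · rw [if_pos h, if_pos h, eval_monomial, Finsupp.prod_fintype _ _ (by simp)]
    · rw [if_neg h, if_neg h]; simp
  | add p q hp hq => rw [map_add, Polynomial.coeff_add, hp, hq, map_add, map_add]

/-- membership in the ideal of a line, degree by degree -/
lemma mem_ker_res {d : ℕ} (P : Fin d → K) (f : MvPolynomial (Fin d) K) :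
    f ∈ RingHom.ker (res P) ↔ ∀ k, eval P (homogeneousComponent k f) = 0 := by
  rw [RingHom.mem_ker]
  constructor
  · intro h k
    rw [← coeff_res]
    have h' : res P f = 0 := h
    rw [h']; simp
  · intro h
    show res P f = 0
    ext k
    rw [coeff_res, h k]; simp

end Q45.Res
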