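import Pool.Agent.Q45.Res.CM
import Pool.Agent.Q45.Res.Gens

/-! Ten lines in `K^3` whose ideal needs at least five generators. -/

open MvPolynomial

namespace Q45.Res

variable {K : Type*} [Field K]

/-- the ten points -/
def pts (c : K) : Fin 10 → Fin 3 → K :=
  ![![1, 0, 0], ![0, 1, 0], ![0, 0, 1], ![0, 1, 1], ![0, 1, c], ![1, 0, 1], ![1, 0, c],
    ![1, 1, 0], ![1, c, 0], ![1, 1, 1]]

/-- exponent vectors -/
noncomputable def mk3 (i j k : ℕ) : Fin 3 →₀ ℕ := Finsupp.equivFunOnFinite.symm ![i, j, k]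

lemma mk3_apply (i j k : ℕ) : ⇑(mk3 i j k) = ![i, j, k] := rfl

lemma degree_three (m : Fin 3 →₀ ℕ) : m.degree = m 0 + m 1 + m 2 := by
  rw [Finsupp.degree_eq_sum, Fin.sum_univ_three]

lemma eq_mk3 (m : Fin 3 →₀ ℕ) : m = mk3 (m 0) (m 1) (m 2) := by
  ext i
  fin_cases i <;> rfl

lemma mk3_injective {i j k i' j' k' : ℕ} (h : mk3 i j k = mk3 i' j' k') :
    i = i' ∧ j = j' ∧ k = k' := by
  have h0 := DFunLike.congr_fun h 0
  have h1 := DFunLike.congr_fun h 1
  have h2 := DFunLike.congr_fun h 2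
  exact ⟨h0, h1, h2⟩

lemma deg_of_coeff {k : ℕ} {f : MvPolynomial (Fin 3) K} (hf : f.IsHomogeneous k)
    {m : Fin 3 →₀ ℕ} (hm : f.coeff m ≠ 0) : m.degree = k := by
  have h2 := coeff_homogeneousComponent k f m
  rw [homogeneousComponent_eq_self hf] at h2
  by_contra hne
  rw [if_neg hne] at h2
  exact hm h2

/-- index set of exponents of degree `k` -/
def idx (k : ℕ) : Finset (ℕ × ℕ) :=
  (Finset.range (k + 1) ×ˢ Finset.range (k + 1)).filter (fun p => p.1 + p.2 ≤ k)

lemma eval_expand {k : ℕ} {f : MvPolynomial (Fin 3) K} (hf : f.IsHomogeneous k)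
    (P : Fin 3 → K) :
    eval P f = ∑ p ∈ idx k, f.coeff (mk3 p.1 p.2 (k - p.1 - p.2)) *
      (P 0 ^ p.1 * P 1 ^ p.2 * P 2 ^ (k - p.1 - p.2)) := by
  classical
  rw [eval_eq']
  have hsub : f.support ⊆ (idx k).image (fun p => mk3 p.1 p.2 (k - p.1 - p.2)) := by
    intro m hm
    have hdeg : m.degree = k := deg_of_coeff hf (mem_support_iff.mp hm)
    rw [degree_three] at hdeg
    rw [Finset.mem_image]
    refine ⟨(m 0, m 1), ?_, ?_⟩
    · simp only [idx, Finset.mem_filter, Finset.mem_product, Finset.mem_range]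
      omega
    · simp only
      have : k - m 0 - m 1 = m 2 := by omega
      rw [this, ← eq_mk3]
  rw [Finset.sum_subset hsub]
  · rw [Finset.sum_image]
    · apply Finset.sum_congr rfl
      intro p _
      rw [Fin.prod_univ_three]
      rfl
    · intro p _ p' _ h
      obtain ⟨h1, h2, -⟩ := mk3_injective h
      exact Prod.ext h1 h2
  · intro m _ hm
    rw [notMem_support_iff.mp hm, zero_mul]

/-- no nonzero cubic form vanishes at the ten points -/
lemma cubic_zero {c : K} (h0 : c ≠ 0) (h1 : c ≠ 1) {f : MvPolynomial (Fin 3) K}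
    (hf : f.IsHomogeneous 3) (h : ∀ i, eval (pts c i) f = 0) : f = 0 := by
  have hidx : idx 3 = {(0, 0), (0, 1), (0, 2), (0, 3), (1, 0), (1, 1), (1, 2), (2, 0), (2, 1),
    (3, 0)} := by decide
  have key : ∀ P : Fin 3 → K, eval P f =
      f.coeff (mk3 0 0 3) * P 2 ^ 3 + f.coeff (mk3 0 1 2) * (P 1 * P 2 ^ 2) +
      f.coeff (mk3 0 2 1) * (P 1 ^ 2 * P 2) + f.coeff (mk3 0 3 0) * P 1 ^ 3 +
      f.coeff (mk3 1 0 2) * (P 0 * P 2 ^ 2) + f.coeff (mk3 1 1 1) * (P 0 * P 1 * P 2) +
      f.coeff (mk3 1 2 0) * (P 0 * P 1 ^ 2) + f.coeff (mk3 2 0 1) * (P 0 ^ 2 * P 2) +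
      f.coeff (mk3 2 1 0) * (P 0 ^ 2 * P 1) + f.coeff (mk3 3 0 0) * P 0 ^ 3 := by
    intro P
    rw [eval_expand hf, hidx]
    simp
    ring
  have e0 := h 0
  have e1 := h 1
  have e2 := h 2
  have e3 := h 3
  have e4 := h 4
  have e5 := h 5
  have e6 := h 6
  have e7 := h 7
  have e8 := h 8
  have e9 := h 9
  rw [key] at e0 e1 e2 e3 e4 e5 e6 e7 e8 e9
  have hc : c * (c - 1) ≠ 0 := mul_ne_zero h0 (sub_ne_zero.mpr h1)
  simp [pts] at e0 e1 e2
  simp [pts, e0, e1, e2] at e3 e4 e5 e6 e7 e8 e9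
  have a1 : f.coeff (mk3 0 1 2) = 0 := by
    apply (mul_eq_zero.mp (_ : c * (c - 1) * f.coeff (mk3 0 1 2) = 0)).resolve_left hc
    linear_combination e4 - c * e3
  have a2 : f.coeff (mk3 0 2 1) = 0 := by linear_combination e3 - a1
  have b1 : f.coeff (mk3 1 0 2) = 0 := by
    apply (mul_eq_zero.mp (_ : c * (c - 1) * f.coeff (mk3 1 0 2) = 0)).resolve_left hc
    linear_combination e6 - c * e5
  have b2 : f.coeff (mk3 2 0 1) = 0 := by linear_combination e5 - b1
  have c1 : f.coeff (mk3 1 2 0) = 0 := by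
    apply (mul_eq_zero.mp (_ : c * (c - 1) * f.coeff (mk3 1 2 0) = 0)).resolve_left hc
    linear_combination e8 - c * e7
  have c2 : f.coeff (mk3 2 1 0) = 0 := by linear_combination e7 - c1
  have d1 : f.coeff (mk3 1 1 1) = 0 := by linear_combination e9 - a1 - a2 - b1 - b2 - c1 - c2
  ext m
  rw [coeff_zero]
  by_contra hm
  have hdeg : m.degree = 3 := deg_of_coeff hf hm
  rw [degree_three] at hdeg
  have hcase : (m 0, m 1) ∈ idx 3 := by
    simp only [idx, Finset.mem_filter, Finset.mem_product, Finset.mem_range]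
    omega
  apply hm
  have hm3 : m = mk3 (m 0) (m 1) (3 - m 0 - m 1) := by
    have : 3 - m 0 - m 1 = m 2 := by omega
    rw [this, ← eq_mk3]
  rw [hm3]
  rw [hidx] at hcase
  simp only [Finset.mem_insert, Finset.mem_singleton, Prod.mk.injEq] at hcase
  rcases hcase with ⟨u, v⟩ | ⟨u, v⟩ | ⟨u, v⟩ | ⟨u, v⟩ | ⟨u, v⟩ | ⟨u, v⟩ | ⟨u, v⟩ | ⟨u, v⟩ |
    ⟨u, v⟩ | ⟨u, v⟩ <;> rw [u, v] <;> assumption

lemma low_zero {c : K} (h0 : c ≠ 0) (h1 : c ≠ 1) {f : MvPolynomial (Fin 3) K} {k : ℕ}
    (hk : k ≤ 3) (hf : f.IsHomogeneous k) (h : ∀ i, eval (pts c i) f = 0) : f = 0 := by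
  have h2 : (X 0 ^ (3 - k) * f : MvPolynomial (Fin 3) K).IsHomogeneous 3 := by
    have := ((isHomogeneous_X K (0 : Fin 3)).pow (3 - k)).mul hf
    have e : 1 * (3 - k) + k = 3 := by omega
    rwa [e] at this
  have h3 := cubic_zero h0 h1 h2 (fun i => by rw [map_mul, h i, mul_zero])
  rcases mul_eq_zero.mp h3 with h4 | h4
  · exact absurd h4 (pow_ne_zero _ (X_ne_zero _))
  · exact h4

lemma idl_coeff_low {c : K} (h0 : c ≠ 0) (h1 : c ≠ 1) {f : MvPolynomial (Fin 3) K}
    (hf : f ∈ idl (pts c)) (m : Fin 3 →₀ ℕ) (hm : m.degree ≤ 3) : f.coeff m = 0 := by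
  have h2 : homogeneousComponent m.degree f = 0 := by
    apply low_zero h0 h1 hm (homogeneousComponent_isHomogeneous _ _)
    intro i
    have : f ∈ RingHom.ker (res (pts c i)) := by
      rw [RingHom.mem_ker]
      exact (mem_idl _ _).mp hf i
    exact (mem_ker_res _ _).mp this _
  have h3 := coeff_homogeneousComponent m.degree f m
  rw [h2, coeff_zero, if_pos rfl] at h3
  exact h3.symm

/-- the form with given coefficients -/
noncomputable def form4 (v : idx 4 → K) : MvPolynomial (Fin 3) K :=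
  ∑ p : idx 4, monomial (mk3 p.1.1 p.1.2 (4 - p.1.1 - p.1.2)) (v p)

lemma mk3_degree (p : idx 4) : (mk3 p.1.1 p.1.2 (4 - p.1.1 - p.1.2)).degree = 4 := by
  obtain ⟨p, hp⟩ := p
  simp only [idx, Finset.mem_filter, Finset.mem_product, Finset.mem_range] at hp
  rw [degree_three]
  show p.1 + p.2 + (4 - p.1 - p.2) = 4
  omega

lemma coeff_form4 (v : idx 4 → K) (p : idx 4) :
    (form4 v).coeff (mk3 p.1.1 p.1.2 (4 - p.1.1 - p.1.2)) = v p := by
  classical
  rw [form4, coeff_sum, Finset.sum_eq_single p]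
  · rw [coeff_monomial, if_pos rfl]
  · intro q _ hq
    rw [coeff_monomial, if_neg]
    intro h
    obtain ⟨h1, h2, -⟩ := mk3_injective h
    exact hq (Subtype.ext (Prod.ext h1 h2))
  · simp

lemma form4_homogeneous (v : idx 4 → K) : (form4 v).IsHomogeneous 4 := by
  apply IsHomogeneous.sum
  intro p _
  exact isHomogeneous_monomial _ (mk3_degree p)

/-- evaluation at the ten points -/
noncomputable def evs (c : K) : (idx 4 → K) →ₗ[K] (Fin 10 → K) where
  toFun v := fun i => eval (pts c i) (form4 v)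
  map_add' v w := by
    funext i
    simp only [form4, Pi.add_apply, map_add, Finset.sum_add_distrib]
  map_smul' t v := by
    funext i
    simp only [form4, Pi.smul_apply, smul_eq_mul, RingHom.id_apply, map_sum, eval_monomial,
      Finset.mul_sum, mul_assoc]

lemma form4_mem {c : K} {v : idx 4 → K} (hv : evs c v = 0) : form4 v ∈ idl (pts c) := by
  rw [mem_idl]
  intro i
  have h1 : form4 v ∈ RingHom.ker (res (pts c i)) := by
    rw [mem_ker_res]
    intro k
    rw [homogeneousComponent_of_mem (form4_homogeneous v)]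
    split_ifs
    · exact congrFun hv i
    · simp
  exact h1

/-- the ideal of the ten lines is not generated by four elements -/
theorem not_four_gens {c : K} (h0 : c ≠ 0) (h1 : c ≠ 1) (g : Fin 4 → MvPolynomial (Fin 3) K) :
    Ideal.span (Set.range g) ≠ idl (pts c) := by
  classical
  intro hg
  -- the coefficient vectors of the generators
  let w : Fin 4 → (idx 4 → K) := fun i p => (g i).coeff (mk3 p.1.1 p.1.2 (4 - p.1.1 - p.1.2))
  have hmem : ∀ i, g i ∈ idl (pts c) := fun i => by
    rw [← hg]; exact Ideal.subset_span (Set.mem_range_self i)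
  have hker : LinearMap.ker (evs c) ≤ Submodule.span K (Set.range w) := by
    intro v hv
    rw [LinearMap.mem_ker] at hv
    have h2 := form4_mem hv
    rw [← hg, Ideal.mem_span_range_iff_exists_fun] at h2
    obtain ⟨a, ha⟩ := h2
    have h3 : v = ∑ i, (a i).coeff 0 • w i := by
      funext p
      rw [← coeff_form4 v p, ← ha, coeff_sum, Finset.sum_apply]
      apply Finset.sum_congr rfl
      intro i _
      rw [coeff_mul, Finset.sum_eq_single (0, mk3 p.1.1 p.1.2 (4 - p.1.1 - p.1.2))]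
      · rfl
      · rintro ⟨m1, m2⟩ hm hne
        rw [Finset.HasAntidiagonal.mem_antidiagonal] at hm
        by_cases hd : m2.degree ≤ 3
        · simp only
          rw [idl_coeff_low h0 h1 (hmem i) m2 hd, mul_zero]
        · exfalso
          have hdeg : m1.degree + m2.degree = 4 := by
            have hm' : m1 + m2 = mk3 p.1.1 p.1.2 (4 - p.1.1 - p.1.2) := hm
            rw [← map_add, hm', mk3_degree]
          have hm1 : m1 = 0 := by
            rw [← Finsupp.degree_eq_zero_iff]; omega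
          apply hne
          subst hm1
          simp only [zero_add] at hm
          rw [hm]
      · intro hnot
        exfalso
        apply hnot
        rw [Finset.HasAntidiagonal.mem_antidiagonal, zero_add]
    rw [h3]
    exact Submodule.sum_mem _ fun i _ => Submodule.smul_mem _ _
      (Submodule.subset_span (Set.mem_range_self i))
  have hfin1 : Module.finrank K (LinearMap.ker (evs c)) ≤ 4 := by
    refine (Submodule.finrank_mono hker).trans ?_
    have := finrank_range_le_card (R := K) w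
    simpa [Set.finrank] using this
  have hrn := LinearMap.finrank_range_add_finrank_ker (evs c)
  have hr : Module.finrank K (LinearMap.range (evs c)) ≤ 10 := by
    have := Submodule.finrank_le (LinearMap.range (evs c))
    simpa using this
  have hcard : Module.finrank K (idx 4 → K) = 15 := by
    rw [Module.finrank_fintype_fun_eq_card, Fintype.card_coe]
    decide
  omega

end Q45.Res
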